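import Pool.Agent.Q169.ZD.Stm

/-!
# Project ZD: job PROJ
-/

set_option autoImplicit false
set_option linter.unusedSectionVars false

open scoped InnerProductSpace

namespace Pool.Agent.Q144.ZD

open Pool.Agent.Q169.ZD
open Pool.Agent.H496R3.ZS (Ell permIso dl dl_apply inner_dl_left)

noncomputable section

open scoped Classical

section basics

variable {X : Type}

/-- evaluation of operators -/
def evh (F : Ell X) (p : X) : (Ell X →L[ℂ] Ell X) →+ ℂ where
  toFun T := T F p
  map_zero' := rfl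
  map_add' _ _ := rfl

theorem sum_ap {ι : Type*} (s : Finset ι) (T : ι → Ell X →L[ℂ] Ell X) (F : Ell X) (p : X) :
    (∑ i ∈ s, T i) F p = ∑ i ∈ s, T i F p :=
  map_sum (evh F p) T s

theorem op_ext {S T : Ell X →L[ℂ] Ell X} (h : ∀ F p, S F p = T F p) : S = T :=
  ContinuousLinearMap.ext fun F => ell_ext fun p => h F p

theorem smul_ap (c : ℂ) (T : Ell X →L[ℂ] Ell X) (F : Ell X) (p : X) :
    (c • T) F p = c * T F p := rfl

theorem mp_pos {A : Set X} {σ : Equiv.Perm X} {F : Ell X} {p : X} (h : p ∈ A) :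
    (msk A ∘L pm σ) F p = F (σ p) := by
  rw [ContinuousLinearMap.comp_apply, msk_apply, if_pos h, pm_apply]

theorem mp_neg {A : Set X} {σ : Equiv.Perm X} {F : Ell X} {p : X} (h : p ∉ A) :
    (msk A ∘L pm σ) F p = 0 := by
  rw [ContinuousLinearMap.comp_apply, msk_apply, if_neg h]

theorem pmm_pos {A : Set X} {σ : Equiv.Perm X} {F : Ell X} {p : X} (h : σ p ∈ A) :
    (pm σ ∘L msk A) F p = F (σ p) := by
  rw [ContinuousLinearMap.comp_apply, pm_apply, msk_apply, if_pos h]

theorem pmm_neg {A : Set X} {σ : Equiv.Perm X} {F : Ell X} {p : X} (h : σ p ∉ A) :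
    (pm σ ∘L msk A) F p = 0 := by
  rw [ContinuousLinearMap.comp_apply, pm_apply, msk_apply, if_neg h]

theorem fs_zero : FS (0 : Ell X →L[ℂ] Ell X) := by
  intro F _
  have : Function.support (fun p => (0 : Ell X →L[ℂ] Ell X) F p) = ∅ := by
    ext p
    simp only [Function.mem_support, Set.mem_empty_iff_false, iff_false, not_not]
    rfl
  rw [this]
  exact Set.finite_empty

theorem fs_add {S T : Ell X →L[ℂ] Ell X} (hS : FS S) (hT : FS T) : FS (S + T) := by
  intro F hF
  refine ((hS F hF).union (hT F hF)).subset ?_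
  intro p hp
  by_contra hcon
  rw [Set.mem_union, not_or, Function.mem_support, Function.mem_support, not_not, not_not] at hcon
  apply hp
  show S F p + T F p = 0
  rw [hcon.1, hcon.2, add_zero]

theorem fs_sum {ι : Type*} (s : Finset ι) (T : ι → Ell X →L[ℂ] Ell X) (h : ∀ i ∈ s, FS (T i)) :
    FS (∑ i ∈ s, T i) := by
  classical
  induction s using Finset.induction_on with
  | empty =>
    rw [Finset.sum_empty]
    exact fs_zero
  | insert a s ha ih =>
    rw [Finset.sum_insert ha]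
    exact fs_add (h a (Finset.mem_insert_self a s))
      (ih fun i hi => h i (Finset.mem_insert_of_mem hi))

theorem fs_smul (c : ℂ) {T : Ell X →L[ℂ] Ell X} (hT : FS T) : FS (c • T) := by
  intro F hF
  refine (hT F hF).subset ?_
  intro p hp h0
  apply hp
  show c * T F p = 0
  rw [show T F p = 0 from h0, mul_zero]

theorem fs_comp {S T : Ell X →L[ℂ] Ell X} (hS : FS S) (hT : FS T) : FS (S ∘L T) :=
  fun F hF => hS (T F) (hT F hF)

theorem fs_msk (A : Set X) : FS (msk A) := by
  intro F hF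
  refine hF.subset ?_
  intro p hp h0
  apply hp
  show (if p ∈ A then F p else 0) = 0
  rw [show F p = 0 from h0]
  simp

theorem fs_pm (σ : Equiv.Perm X) : FS (pm σ) := by
  intro F hF
  have h1 : Function.support (fun p => pm σ F p) = σ ⁻¹' Function.support (fun p => F p) := rfl
  rw [h1]
  exact hF.preimage σ.injective.injOn

end basics

section

variable {G : Type} [Group G] {E : Ext G} {I : Type} [Fintype I] (C : Cx E I)

theorem one_mem_U (j : I) : (1 : G) ∈ C.U j := (C.mem_U j 1).2 (Subgroup.one_mem _)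

theorem wt_pos {q : G → ℝ} (hq : Wt E q) (j : I) : 0 < C.wt q j :=
  Finset.sum_pos (fun u _ => hq.pos u) ⟨1, one_mem_U C j⟩

theorem P_apply (hup : S_UP G E I C) (q : G → ℝ) (F : Ell (I × G)) (j : I) (g : G) :
    C.P q F (j, g) = ∑ v ∈ C.U j,
      ((Real.sqrt (q (C.up j g)) * Real.sqrt (q v) / C.wt q j : ℝ) : ℂ) *
        F (j, v * (C.up j g)⁻¹ * g) := by
  rw [Cx.P, sum_ap, Finset.sum_eq_single j]
  · rw [sum_ap, Finset.sum_eq_single (C.up j g)]
    · rw [sum_ap]
      refine Finset.sum_congr rfl fun v _ => ?_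
      rw [smul_ap, mp_pos (show ((j, g) : I × G) ∈ {p : I × G | p.1 = j ∧
        C.up j p.2 = C.up j g} from ⟨rfl, rfl⟩)]
      rfl
    · intro u _ hu
      rw [sum_ap]
      refine Finset.sum_eq_zero fun v _ => ?_
      rw [smul_ap, mp_neg (show ((j, g) : I × G) ∉ {p : I × G | p.1 = j ∧
        C.up j p.2 = u} from fun h => hu h.2.symm), mul_zero]
    · intro h
      exact absurd ((C.mem_U j _).2 (hup.1 j g)) h
  · intro j' _ hj
    rw [sum_ap]
    refine Finset.sum_eq_zero fun u _ => ?_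
    rw [sum_ap]
    refine Finset.sum_eq_zero fun v _ => ?_
    rw [smul_ap, mp_neg (show ((j, g) : I × G) ∉ {p : I × G | p.1 = j' ∧
      C.up j' p.2 = u} from fun h => hj h.1.symm), mul_zero]
  · intro h
    exact absurd (Finset.mem_univ j) h

theorem Pad_apply (hup : S_UP G E I C) (q : G → ℝ) (F : Ell (I × G)) (j : I) (g : G) :
    ContinuousLinearMap.adjoint (C.P q) F (j, g) = ∑ u ∈ C.U j,
      ((Real.sqrt (q u) * Real.sqrt (q (C.up j g)) / C.wt q j : ℝ) : ℂ) *
        F (j, u * (C.up j g)⁻¹ * g) := by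
  have h0 : ContinuousLinearMap.adjoint (C.P q) = ∑ j, ∑ u ∈ C.U j, ∑ v ∈ C.U j,
      ((Real.sqrt (q u) * Real.sqrt (q v) / C.wt q j : ℝ) : ℂ) •
        (pm (lm I (v * u⁻¹))⁻¹ ∘L msk {p : I × G | p.1 = j ∧ C.up j p.2 = u}) := by
    rw [Cx.P, map_sum]
    refine Finset.sum_congr rfl fun j _ => ?_
    rw [map_sum]
    refine Finset.sum_congr rfl fun u _ => ?_
    rw [map_sum]
    refine Finset.sum_congr rfl fun v _ => ?_
    rw [map_smulₛₗ, ContinuousLinearMap.adjoint_comp, adjoint_pm, adjoint_msk, Complex.conj_ofReal]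
  have hinv : ∀ (h : G) (p : I × G), (lm I h)⁻¹ p = (p.1, h⁻¹ * p.2) := fun h p => rfl
  rw [h0, sum_ap, Finset.sum_eq_single j]
  · rw [sum_ap]
    refine Finset.sum_congr rfl fun u hu => ?_
    rw [sum_ap, Finset.sum_eq_single (C.up j g)]
    · have h1 : (C.up j g * u⁻¹)⁻¹ = u * (C.up j g)⁻¹ := by group
      have h2 : C.up j (u * (C.up j g)⁻¹ * g) = u := by
        rw [hup.2.2.1 j g _ (Subgroup.mul_mem _ ((C.mem_U j u).1 hu)
          (Subgroup.inv_mem _ (hup.1 j g)))]
        group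
      rw [smul_ap, pmm_pos (show (lm I (C.up j g * u⁻¹))⁻¹ (j, g) ∈ {p : I × G | p.1 = j ∧
        C.up j p.2 = u} from ⟨rfl, by rw [hinv]; show C.up j ((C.up j g * u⁻¹)⁻¹ * g) = u; rw [h1, h2]⟩),
        hinv, h1]
    · intro v hv hne
      rw [smul_ap, pmm_neg, mul_zero]
      rintro ⟨_, h⟩
      apply hne
      have h1 : (v * u⁻¹)⁻¹ = u * v⁻¹ := by group
      have h2 : C.up j ((v * u⁻¹)⁻¹ * g) = u * v⁻¹ * C.up j g := by
        rw [h1]
        exact hup.2.2.1 j g _ (Subgroup.mul_mem _ ((C.mem_U j u).1 hu)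
          (Subgroup.inv_mem _ ((C.mem_U j v).1 hv)))
      have h3 : u * v⁻¹ * C.up j g = u := by
        rw [← h2]
        exact h
      have h4 : v⁻¹ * C.up j g = 1 := by
        have : u * (v⁻¹ * C.up j g) = u * 1 := by rw [mul_one, ← mul_assoc, h3]
        exact mul_left_cancel this
      exact (inv_mul_eq_one.1 h4)
    · intro h
      exact absurd ((C.mem_U j _).2 (hup.1 j g)) h
  · intro j' _ hj
    rw [sum_ap]
    refine Finset.sum_eq_zero fun u _ => ?_
    rw [sum_ap]
    refine Finset.sum_eq_zero fun v _ => ?_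
    rw [smul_ap, pmm_neg (fun h => hj h.1.symm), mul_zero]
  · intro h
    exact absurd (Finset.mem_univ j) h

end

theorem proj (G : Type) [Group G] (E : Ext G) (I : Type) [Fintype I] (C : Cx E I)
    (hup : S_UP G E I C) : S_PROJ G E I C := by
  intro q hq
  have hupm : ∀ (j : I) (v g : G), v ∈ C.U j → C.up j (v * (C.up j g)⁻¹ * g) = v := by
    intro j v g hv
    rw [hup.2.2.1 j g _ (Subgroup.mul_mem _ ((C.mem_U j v).1 hv)
      (Subgroup.inv_mem _ (hup.1 j g)))]
    group
  have hmemM := hup.2.2.2.2.2 q hq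
  refine ⟨?_, ?_, ?_, ?_, ?_, ?_⟩
  · intro F
    rw [hmemM]
    intro j g
    have h1 : C.up j ((C.up j g)⁻¹ * g) = 1 := by
      rw [hup.2.2.1 j g _ (Subgroup.inv_mem _ (hup.1 j g))]
      group
    rw [P_apply C hup, P_apply C hup, h1, hq.one, Real.sqrt_one, Finset.mul_sum]
    refine Finset.sum_congr rfl fun v _ => ?_
    have h2 : v * (1 : G)⁻¹ * ((C.up j g)⁻¹ * g) = v * (C.up j g)⁻¹ * g := by group
    rw [h2]
    push_cast
    ring
  · intro F hF
    rw [hmemM] at hF
    refine ell_ext ?_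
    rintro ⟨j, g⟩
    rw [P_apply C hup, hF j g]
    have h1 : ∀ v ∈ C.U j, ((Real.sqrt (q (C.up j g)) * Real.sqrt (q v) / C.wt q j : ℝ) : ℂ) *
        F (j, v * (C.up j g)⁻¹ * g) = ((q v : ℝ) : ℂ) *
          (((Real.sqrt (q (C.up j g)) : ℝ) : ℂ) * F (j, (C.up j g)⁻¹ * g) / (C.wt q j : ℂ)) := by
      intro v hv
      rw [hF j (v * (C.up j g)⁻¹ * g), hupm j v g hv]
      have h2 : v⁻¹ * (v * (C.up j g)⁻¹ * g) = (C.up j g)⁻¹ * g := by group
      have h3 : ((Real.sqrt (q v) : ℝ) : ℂ) * ((Real.sqrt (q v) : ℝ) : ℂ) = ((q v : ℝ) : ℂ) := by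
        rw [← Complex.ofReal_mul, Real.mul_self_sqrt (hq.pos v).le]
      rw [h2, ← h3]
      push_cast
      ring
    rw [Finset.sum_congr rfl h1, ← Finset.sum_mul, ← Complex.ofReal_sum]
    have h4 : ((∑ v ∈ C.U j, q v : ℝ) : ℂ) = (C.wt q j : ℂ) := rfl
    have h5 : (C.wt q j : ℂ) ≠ 0 := by
      exact_mod_cast (wt_pos C hq j).ne'
    rw [h4, mul_div_cancel₀ _ h5]
  · refine op_ext ?_
    rintro F ⟨j, g⟩
    rw [Pad_apply C hup, P_apply C hup]
    refine Finset.sum_congr rfl fun v _ => ?_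
    rw [mul_comm (Real.sqrt (q v))]
  · intro j
    have h0 : C.up j (1 : G) = 1 := hup.2.2.2.1 j
    rw [P_apply C hup, h0, hq.one, Real.sqrt_one, Finset.sum_eq_single 1]
    · rw [hq.one, Real.sqrt_one]
      have : ((j, (1 : G) * (1 : G)⁻¹ * 1) : I × G) = (j, 1) := by simp
      rw [this, dl_apply, if_pos rfl]
      simp
    · intro v _ hv
      have h1 : (v * (1 : G)⁻¹ * 1 : G) = v := by group
      rw [h1, dl_apply, if_neg, mul_zero]
      intro h
      exact hv (congrArg Prod.snd h)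
    · intro h
      exact absurd (one_mem_U C j) h
  · rw [Cx.P]
    exact fs_sum _ _ fun j _ => fs_sum _ _ fun u _ => fs_sum _ _ fun v _ =>
      fs_smul _ (fs_comp (fs_msk _) (fs_pm _))
  · intro A
    refine op_ext ?_
    rintro F ⟨j, g⟩
    rw [ContinuousLinearMap.comp_apply, ContinuousLinearMap.comp_apply, P_apply C hup, msk_apply]
    by_cases hj : j ∈ A
    · rw [if_pos (show ((j, g) : I × G) ∈ {p : I × G | p.1 ∈ A} from hj), P_apply C hup]
      refine Finset.sum_congr rfl fun v _ => ?_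
      rw [msk_apply, if_pos (show ((j, v * (C.up j g)⁻¹ * g) : I × G) ∈ {p : I × G | p.1 ∈ A}
        from hj)]
    · rw [if_neg (show ¬ ((j, g) : I × G) ∈ {p : I × G | p.1 ∈ A} from hj)]
      refine Finset.sum_eq_zero fun v _ => ?_
      rw [msk_apply, if_neg (show ¬ ((j, v * (C.up j g)⁻¹ * g) : I × G) ∈ {p : I × G | p.1 ∈ A}
        from hj), mul_zero]

end

end Pool.Agent.Q144.ZD
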