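import Pool.Agent.Q144.ZD.Proj

/-!
# Project ZD: job TRACE
-/

set_option autoImplicit false
set_option linter.unusedSectionVars false

open scoped InnerProductSpace

namespace Pool.Agent.Q144.ZD

open Pool.Agent.Q169.ZD
open Pool.Agent.H496R3.ZS (Ell permIso dl dl_apply inner_dl_left)

noncomputable section

open scoped Classical

section basics

variable {X : Type}

/-- evaluation of functions -/
def evp (p : X) : Ell X →+ ℂ where
  toFun F := F p
  map_zero' := rfl
  map_add' _ _ := rfl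

theorem expand (F : Ell X) (S : Finset X) (h : ∀ p, p ∉ S → F p = 0) :
    F = ∑ p ∈ S, F p • dl p := by
  refine ell_ext fun r => ?_
  have h1 : (∑ p ∈ S, F p • (dl p : Ell X)) r = ∑ p ∈ S, (F p • (dl p : Ell X)) r :=
    map_sum (evp r) (fun p => F p • (dl p : Ell X)) S
  have h2 : ∀ p ∈ S, (F p • (dl p : Ell X)) r = if r = p then F p else 0 := by
    intro p _
    show F p * (dl p : Ell X) r = _
    rw [dl_apply]
    split_ifs <;> simp
  rw [h1, Finset.sum_congr rfl h2, Finset.sum_ite_eq]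
  split_ifs with hr
  · rfl
  · exact h r hr

end basics

section

variable {G : Type} [Group G] {E : Ext G} {I : Type} [Fintype I]

theorem rS_dl (q : G → ℝ) {s : G} (hs : s ∈ E.S) (j : I) (y : G) (hy : E.len y < E.len (y * s)) :
    rS E I q s (dl (j, y)) = ((Real.sqrt (q s) : ℝ) : ℂ) • dl (j, y * s) := by
  have h1 : s⁻¹ = s := inv_eq_of_mul_eq_one_left (E.sq s hs)
  have h2 : pm (rm I s) (dl (j, y)) = dl (j, y * s) := by
    rw [pm_dl]
    have h3 : (rm I s)⁻¹ (j, y) = (j, y * s⁻¹) := rfl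
    rw [h3, h1]
  have h4 : msk {p : I × G | E.len (p.2 * s) < E.len p.2} (dl (j, y)) = 0 := by
    rw [msk_dl, if_neg]
    intro h
    exact absurd (show E.len (y * s) < E.len y from h) (by omega)
  rw [rS, ContinuousLinearMap.add_apply, ContinuousLinearMap.smul_apply,
    ContinuousLinearMap.smul_apply, h2, h4, smul_zero, add_zero]

theorem rS_adj (q : G → ℝ) {s : G} (hs : s ∈ E.S) :
    ContinuousLinearMap.adjoint (rS E I q s) = rS E I q s := by
  have h1 : s⁻¹ = s := inv_eq_of_mul_eq_one_left (E.sq s hs)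
  have h2 : (rm I s)⁻¹ = rm I s := by
    ext p
    · rfl
    · show p.2 * s⁻¹ = p.2 * s
      rw [h1]
  rw [rS, map_add, map_smulₛₗ, map_smulₛₗ, adjoint_pm, adjoint_msk, h2, Complex.conj_ofReal,
    Complex.conj_ofReal]

theorem trans_op (q : G → ℝ) (hq : Wt E q) (n : ℕ) : ∀ g : G, E.len g = n →
    ∃ ρ : Ell (I × G) →L[ℂ] Ell (I × G),
      (∀ x, Comm E I q x → x ∘L ρ = ρ ∘L x) ∧
      (∀ (j : I) x, E.len (x * g) = E.len x + E.len g → ρ (dl (j, x)) = dl (j, x * g)) ∧
      (∀ (j : I) x, E.len (x * g⁻¹) = E.len x + E.len g →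
        ContinuousLinearMap.adjoint ρ (dl (j, x)) = dl (j, x * g⁻¹)) := by
  induction n with
  | zero =>
    intro g hg
    refine ⟨rH I g⁻¹, ?_, ?_, ?_⟩
    · intro x hx
      exact hx.2 g⁻¹ (by rw [E.len_inv, hg])
    · intro j x _
      rw [rH, pm_dl]
      have h3 : (rm I g⁻¹)⁻¹ (j, x) = (j, x * (g⁻¹)⁻¹) := rfl
      rw [h3, inv_inv]
    · intro j x _
      rw [rH, adjoint_pm, pm_dl, inv_inv]
      rfl
  | succ n ih =>
    intro g hg
    obtain ⟨s, hs, hlt⟩ := E.desc g (by omega)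
    have hg1 : E.len (g * s) + 1 = E.len g := by
      rcases E.len_muls s hs g with h | h
      · omega
      · exact h
    have hss := E.sq s hs
    have hsi : s⁻¹ = s := inv_eq_of_mul_eq_one_left hss
    obtain ⟨ρ', h1, h2, h3⟩ := ih (g * s) (by omega)
    have hsq : ((Real.sqrt (q s) : ℝ) : ℂ) ≠ 0 := by
      exact_mod_cast (Real.sqrt_pos.2 (hq.pos s)).ne'
    refine ⟨((Real.sqrt (q s) : ℝ) : ℂ)⁻¹ • (rS E I q s ∘L ρ'), ?_, ?_, ?_⟩
    · intro x hx
      rw [ContinuousLinearMap.comp_smul, ContinuousLinearMap.smul_comp,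
        ← ContinuousLinearMap.comp_assoc, hx.1 s hs, ContinuousLinearMap.comp_assoc, h1 x hx,
        ← ContinuousLinearMap.comp_assoc]
    · intro j x hx
      have e1 : x * (g * s) * s = x * g := by
        rw [mul_assoc, mul_assoc, hss, mul_one]
      have l1 := E.len_mul x (g * s)
      have l2 := E.len_muls s hs (x * (g * s))
      rw [e1] at l2
      have l3 : E.len (x * (g * s)) = E.len x + E.len (g * s) := by omega
      rw [ContinuousLinearMap.smul_apply, ContinuousLinearMap.comp_apply, h2 j x l3,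
        rS_dl q hs j _ (by rw [e1]; omega), e1, smul_smul, inv_mul_cancel₀ hsq, one_smul]
    · intro j x hx
      have e1 : (x * s) * (g * s)⁻¹ = x * g⁻¹ := by
        rw [mul_inv_rev, mul_assoc, ← mul_assoc s, hsi, hss, one_mul]
      have l1 := E.len_mul (x * s) (g * s)⁻¹
      rw [e1, E.len_inv] at l1
      have l2 := E.len_muls s hs x
      have l3 : E.len ((x * s) * (g * s)⁻¹) = E.len (x * s) + E.len (g * s) := by
        rw [e1]
        omega
      rw [map_smulₛₗ, ContinuousLinearMap.adjoint_comp, rS_adj q hs,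
        ContinuousLinearMap.smul_apply, ContinuousLinearMap.comp_apply,
        rS_dl q hs j x (by omega), map_smul, h3 j (x * s) l3, e1, map_inv₀, Complex.conj_ofReal,
        smul_smul, inv_mul_cancel₀ hsq, one_smul]

theorem key (q : G → ℝ) (hq : Wt E q) (y : Ell (I × G) →L[ℂ] Ell (I × G)) (hy : Comm E I q y)
    (j k : I) (g : G) : (y (dl (k, g)) : I × G → ℂ) (j, 1) =
      (y (dl (k, 1)) : I × G → ℂ) (j, g⁻¹) := by
  obtain ⟨ρ, h1, h2, h3⟩ := trans_op (I := I) q hq _ g rfl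
  have e1 : ρ (dl (k, 1)) = dl (k, g) := by
    have := h2 k 1 (by rw [one_mul, E.len_one, zero_add])
    rwa [one_mul] at this
  have e2 : ContinuousLinearMap.adjoint ρ (dl (j, 1)) = dl (j, g⁻¹) := by
    have := h3 j 1 (by rw [one_mul, E.len_one, zero_add, E.len_inv])
    rwa [one_mul] at this
  have e3 : y (ρ (dl (k, 1))) = ρ (y (dl (k, 1))) :=
    congrArg (fun T : Ell (I × G) →L[ℂ] Ell (I × G) => T (dl (k, 1))) (h1 y hy)
  rw [← e1, e3, ← inner_dl (j, 1), ← ContinuousLinearMap.adjoint_inner_left, e2, inner_dl]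

theorem tr_formula (q : G → ℝ) (hq : Wt E q) (x y : Ell (I × G) →L[ℂ] Ell (I × G))
    (hy : Comm E I q y) (Γ : Finset G)
    (hΓ : ∀ j k g, g ∉ Γ → (x (dl (j, 1)) : I × G → ℂ) (k, g) = 0) :
    Tr (y ∘L x) = ∑ j : I, ∑ k : I, ∑ g ∈ Γ,
      (x (dl (j, 1)) : I × G → ℂ) (k, g) * (y (dl (k, 1)) : I × G → ℂ) (j, g⁻¹) := by
  rw [Tr]
  refine Finset.sum_congr rfl fun j _ => ?_
  have h1 := expand (x (dl (j, 1))) (Finset.univ ×ˢ Γ) (fun p hp => by
    obtain ⟨k, g⟩ := p
    refine hΓ j k g fun hg => hp ?_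
    simp [hg])
  rw [ContinuousLinearMap.comp_apply]
  conv_lhs => rw [h1, map_sum]
  have h2 : (∑ p ∈ Finset.univ ×ˢ Γ, y ((x (dl (j, 1)) : I × G → ℂ) p • dl p)) (j, 1) =
      ∑ p ∈ Finset.univ ×ˢ Γ, (y ((x (dl (j, 1)) : I × G → ℂ) p • dl p)) (j, 1) :=
    map_sum (evp (j, 1)) _ _
  rw [h2, Finset.sum_product]
  refine Finset.sum_congr rfl fun k _ => Finset.sum_congr rfl fun g _ => ?_
  rw [map_smul]
  show (x (dl (j, 1)) : I × G → ℂ) (k, g) * (y (dl (k, g)) : I × G → ℂ) (j, 1) = _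
  rw [key q hq y hy j k g]

end

theorem trace (G : Type) [Group G] (E : Ext G) (I : Type) [Fintype I] : S_TRACE G E I := by
  intro q hq x y hx hy hfx hfy
  have hfin : ∀ (z : Ell (I × G) →L[ℂ] Ell (I × G)), FS z → ∀ j : I,
      (Function.support (fun p => z (dl (j, 1)) p)).Finite := by
    intro z hz j
    refine hz _ ((Set.finite_singleton ((j, 1) : I × G)).subset ?_)
    intro p hp
    by_contra hne
    apply hp
    show (dl (j, 1) : Ell (I × G)) p = 0
    rw [dl_apply, if_neg (show ¬ p = (j, 1) from hne)]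
  set Γ₁ : Finset G := Finset.univ.biUnion (fun j : I => ((hfin x hfx j).toFinset.image Prod.snd) ∪
    ((hfin y hfy j).toFinset.image Prod.snd)) with hΓ₁
  set Γ : Finset G := Γ₁ ∪ Γ₁.image (fun g => g⁻¹) with hΓ
  have hinv : ∀ g ∈ Γ, g⁻¹ ∈ Γ := by
    intro g hg
    rw [hΓ, Finset.mem_union] at hg ⊢
    rcases hg with h | h
    · exact Or.inr (Finset.mem_image_of_mem _ h)
    · obtain ⟨g', hg', rfl⟩ := Finset.mem_image.1 h
      left
      rwa [inv_inv]
  have hx0 : ∀ j k g, g ∉ Γ → (x (dl (j, 1)) : I × G → ℂ) (k, g) = 0 := by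
    intro j k g hg
    by_contra hne
    apply hg
    refine Finset.mem_union_left _ (Finset.mem_biUnion.2 ⟨j, Finset.mem_univ j, ?_⟩)
    exact Finset.mem_union_left _ (Finset.mem_image.2 ⟨(k, g), (Set.Finite.mem_toFinset _).2 hne,
      rfl⟩)
  have hy0 : ∀ j k g, g ∉ Γ → (y (dl (j, 1)) : I × G → ℂ) (k, g) = 0 := by
    intro j k g hg
    by_contra hne
    apply hg
    refine Finset.mem_union_left _ (Finset.mem_biUnion.2 ⟨j, Finset.mem_univ j, ?_⟩)
    exact Finset.mem_union_right _ (Finset.mem_image.2 ⟨(k, g), (Set.Finite.mem_toFinset _).2 hne,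
      rfl⟩)
  rw [tr_formula q hq y x hx Γ hy0, tr_formula q hq x y hy Γ hx0, Finset.sum_comm]
  refine Finset.sum_congr rfl fun j _ => Finset.sum_congr rfl fun k _ => ?_
  refine Finset.sum_nbij' (fun g => g⁻¹) (fun g => g⁻¹) hinv hinv (fun g _ => inv_inv g)
    (fun g _ => inv_inv g) fun g _ => ?_
  rw [inv_inv, mul_comm]

end

end Pool.Agent.Q144.ZD
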